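import Pool.Agent.Lib.MP_3b1384_co.Main

namespace Pool.Agent.Results.MP_3b1384_co.Unimodal
open Pool.Agent.Lib.MP_3b1384_co

theorem result : ¬ ∃ n i j l : ℕ, 1 ≤ n ∧ 1 ≤ i ∧ i < j ∧ j < l ∧ l ≤ n - 1 ∧
    a n j < a n i ∧ a n j < a n l := by
  rintro ⟨n, i, j, l, -, h1, h2, h3, h4, h⟩
  obtain ⟨m, rfl⟩ : ∃ m, n = m + 2 := ⟨n - 2, by omega⟩
  obtain ⟨k, k1, k2, k3⟩ : ∃ k, i ≤ k ∧ k < j ∧ a (m + 2) (k + 1) < a (m + 2) k := by
    by_contra! hc
    have : ∀ p, i ≤ p → p ≤ j → a (m + 2) i ≤ a (m + 2) p := fun p hp => by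
      induction p, hp using Nat.le_induction with
      | base => exact fun _ => le_rfl
      | succ p hp ih => exact fun hp' => (ih (by omega)).trans (hc p hp hp')
    exact absurd (this j h2.le le_rfl) (not_le.2 h.1)
  have : ∀ p, j ≤ p → a (m + 2) p ≤ a (m + 2) j := fun p hp => by
    induction p, hp using Nat.le_induction with
    | base => exact le_rfl
    | succ p hp ih => exact (after_descent m k (by omega) k3 p (by omega)).trans ih
  exact absurd (this l h3.le) (not_le.2 h.2)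

end Pool.Agent.Results.MP_3b1384_co.Unimodal
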